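import Pool.Agent.L7h5.SP.Stm
import Pool.Agent.L7h10.RQ.Fr
import Pool.Agent.Y773.AB.Cheb

/-!
# Project SP, part CHEB
-/

set_option autoImplicit false
set_option linter.style.haveILetI false

namespace Pool.Agent.L7h25.SP
open NumberField Module IntermediateField
open Pool.Agent.K4H33.SK (Qbar GQ Fixes fixes_iff agree_iff agree_sup)
open Pool.Agent.K4H33.SK.Stmt (Sub Ideals nrm Cop prd principal Above IsFrob IsArtin cnt cntAll)
open Pool.Agent.L7h10.RQ (IsAbelian acl toGQ toGQ_fixes)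
open Pool.Agent.L7h5.SP

/-- primes above large rational primes -/
lemma exists_over {F : Sub} [NumberField F] (𝔮 : Ideals F) (h𝔮 : 𝔮 ≠ ⊥) {p : ℕ} (hp : p.Prime)
    (hlt : nrm F 𝔮 < p) : ∃ P : Ideals F, P.IsPrime ∧ P ≠ ⊥ ∧ IsCoprime P 𝔮 ∧
      ∃ k : ℕ, 0 < k ∧ nrm F P = p ^ k := by
  have hpZ : Prime (p : ℤ) := Nat.prime_iff_prime_int.mp hp
  haveI : (Ideal.span {(p : ℤ)}).IsPrime := by
    rw [Ideal.span_singleton_prime hpZ.ne_zero]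
    exact hpZ
  obtain ⟨⟨P, hP, hl⟩⟩ := Ideal.nonempty_primesOver (S := 𝓞 F) (Ideal.span {(p : ℤ)})
  haveI := hP
  haveI := hl
  have hN := Ideal.absNorm_eq_pow_inertiaDeg' P hp
  have hk : 0 < (Ideal.span {(p : ℤ)}).inertiaDeg' P := by
    rcases Nat.eq_zero_or_pos ((Ideal.span {(p : ℤ)}).inertiaDeg' P) with h | h
    · rw [h, pow_zero, Ideal.absNorm_eq_one_iff] at hN
      exact absurd hN hP.ne_top
    · exact h
  have hbot : P ≠ ⊥ := by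
    rintro rfl
    rw [Ideal.absNorm_bot] at hN
    exact (pow_pos hp.pos _).ne hN
  refine ⟨P, hP, hbot, ?_, _, hk, hN⟩
  have hmax : P.IsMaximal := hP.isMaximal hbot
  rw [Ideal.isCoprime_iff_sup_eq]
  rcases hmax.out.le_iff.mp (show P ≤ P ⊔ 𝔮 from le_sup_left) with h | h
  · exact h
  · exfalso
    have h1 : 𝔮 ≤ P := by
      rw [← h]
      exact le_sup_right
    have h2 : Ideal.absNorm P ∣ Ideal.absNorm 𝔮 := Ideal.absNorm_dvd_absNorm_of_le h1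
    rw [hN] at h2
    have h3 : p ∣ Ideal.absNorm 𝔮 := (dvd_pow_self p hk.ne').trans h2
    have h4 : Ideal.absNorm 𝔮 ≠ 0 := by
      rw [Ne, Ideal.absNorm_eq_zero_iff]
      exact h𝔮
    have h5 := Nat.le_of_dvd (Nat.pos_of_ne_zero h4) h3
    exact absurd hlt (not_lt.2 h5)

/-- a nonzero ideal divisible by the given ideals -/
lemma avoid {F : Sub} [NumberField F] (B : Set (Ideals F)) (hB : B.Finite) :
    ∃ 𝔟 : Ideals F, 𝔟 ≠ ⊥ ∧ ∀ P : Ideals F, P.IsPrime → P ≠ ⊥ → IsCoprime P 𝔟 → P ∉ B := by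
  classical
  refine ⟨∏ P ∈ hB.toFinset.filter (fun P => P ≠ ⊥), P, ?_, ?_⟩
  · rw [← Ideal.zero_eq_bot, Finset.prod_ne_zero_iff]
    intro P hP
    rw [Finset.mem_filter] at hP
    exact hP.2
  · intro P hP hP0 hc hPB
    have h1 : P ∈ hB.toFinset.filter (fun P => P ≠ ⊥) := by
      rw [Finset.mem_filter, Set.Finite.mem_toFinset]
      exact ⟨hPB, hP0⟩
    have h2 : IsCoprime P P := IsCoprime.of_prod_right hc P h1
    rw [Ideal.isCoprime_iff_sup_eq, sup_idem] at h2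
    exact hP.ne_top h2

/-- the extension as an extension of `F` -/
noncomputable abbrev EE {F H' : Sub} (hA : IsAbelian F H') : IntermediateField F Qbar := extendScalars hA.le

lemma mem_EE {F H' : Sub} (hA : IsAbelian F H') {x : Qbar} : x ∈ EE hA ↔ x ∈ H' := Iff.rfl

lemma findim {F H' : Sub} (hA : IsAbelian F H') : FiniteDimensional ℚ (EE hA) := hA.fin

lemma findimF {F H' : Sub} [NumberField F] (hA : IsAbelian F H') : FiniteDimensional F (EE hA) := by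
  haveI i1 := findim hA
  haveI i5 : IsScalarTower ℚ F (EE hA) := inferInstance
  exact FiniteDimensional.right ℚ F (EE hA)

lemma abGal {F H' : Sub} [NumberField F] (hA : IsAbelian F H') : IsAbelianGalois F (EE hA) := by
  haveI := acl F
  haveI i0 := findimF hA
  haveI iN : Normal F Qbar := IsAlgClosure.normal F Qbar
  haveI i2 : Normal F (EE hA) := by
    rw [IntermediateField.normal_iff_forall_map_le']
    rintro σ _ ⟨y, hy, rfl⟩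
    exact hA.normal (toGQ F σ) (toGQ_fixes σ) y hy
  haveI i3 : IsGalois F (EE hA) := ⟨⟩
  suffices hc : ∀ a b : (EE hA ≃ₐ[F] EE hA), a * b = b * a by
    haveI : IsMulCommutative (EE hA ≃ₐ[F] EE hA) := ⟨⟨hc⟩⟩
    exact ⟨⟩
  intro a b
  obtain ⟨σ, rfl⟩ := AlgEquiv.restrictNormalHom_surjective (F := F) (K₁ := EE hA) Qbar a
  obtain ⟨τ, rfl⟩ := AlgEquiv.restrictNormalHom_surjective (F := F) (K₁ := EE hA) Qbar b
  rw [← map_mul, ← map_mul]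
  apply AlgEquiv.ext
  intro x
  apply Subtype.ext
  have h1 : (((AlgEquiv.restrictNormalHom (EE hA)) (σ * τ) x : EE hA) : Qbar) = (σ * τ) x :=
    AlgEquiv.restrictNormal_commutes (σ * τ) (EE hA) x
  have h2 : (((AlgEquiv.restrictNormalHom (EE hA)) (τ * σ) x : EE hA) : Qbar) = (τ * σ) x :=
    AlgEquiv.restrictNormal_commutes (τ * σ) (EE hA) x
  rw [h1, h2]
  exact hA.comm (toGQ F σ) (toGQ F τ) (toGQ_fixes σ) (toGQ_fixes τ) x x.2

/-- an algebraic integer moved by a nontrivial automorphism -/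
lemma moved {F E : Type} [Field F] [NumberField F] [Field E] [NumberField E] [Algebra F E]
    (τ : E ≃ₐ[F] E) (hτ : τ ≠ 1) : ∃ x y : 𝓞 E, (y : E) = τ (x : E) ∧ y ≠ x := by
  by_contra hcon
  push Not at hcon
  apply hτ
  apply AlgEquiv.ext
  intro z
  obtain ⟨a, b, hb, rfl⟩ := IsFractionRing.div_surjective (A := 𝓞 E) z
  have key : ∀ a : 𝓞 E, τ (algebraMap (𝓞 E) E a) = algebraMap (𝓞 E) E a := by
    intro a
    have h1 := hcon a (RingOfIntegers.mapRingHom (τ : E →+* E) a) rfl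
    have h2 := congrArg (fun y : 𝓞 E => (y : E)) h1
    exact h2
  rw [map_div₀, key, key]
  rfl

lemma natural {F H' : Sub} [NumberField F] (hA : IsAbelian F H') (𝔮 : Ideals F) (h𝔮 : 𝔮 ≠ ⊥) :
    ∃ 𝔡 : Ideals F, 𝔡 ≠ ⊥ ∧ ∀ (σ : GQ), Fixes F σ → ∃ 𝔭 : Ideals F, 𝔭.IsPrime ∧ 𝔭 ≠ ⊥ ∧
      IsCoprime 𝔭 𝔮 ∧ IsCoprime 𝔭 𝔡 ∧
      ∀ a : GQ, Fixes F a → (∀ 𝔓 : Ideal (𝓞 Qbar), Above F 𝔭 𝔓 → IsFrob H' 𝔓 (nrm F 𝔭) a) →
        ∀ x ∈ H', a x = σ x := by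
  classical
  haveI := acl F
  haveI i1 := findim hA
  haveI i2 := findimF hA
  haveI iab := abGal hA
  haveI iN : Normal F Qbar := IsAlgClosure.normal F Qbar
  haveI iNF : NumberField (EE hA) := ⟨⟩
  haveI : Finite (EE hA ≃ₐ[F] EE hA) := inferInstance
  letI : Fintype (EE hA ≃ₐ[F] EE hA) := Fintype.ofFinite _
  haveI hint : Algebra.IsIntegral (𝓞 F) (𝓞 (EE hA)) := inferInstance
  have hmv : ∀ τ : (EE hA ≃ₐ[F] EE hA), ∃ xy : 𝓞 (EE hA) × 𝓞 (EE hA), τ ≠ 1 →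
      ((xy.2 : EE hA) = τ (xy.1 : EE hA) ∧ xy.2 ≠ xy.1) := by
    intro τ
    by_cases h : τ = 1
    · exact ⟨(0, 0), fun h' => absurd h h'⟩
    · obtain ⟨x, y, h1, h2⟩ := moved τ h
      exact ⟨(x, y), fun _ => ⟨h1, h2⟩⟩
  choose xy hxy using hmv
  let 𝔞 : (EE hA ≃ₐ[F] EE hA) → Ideals F := fun τ =>
    (Ideal.span {(xy τ).2 - (xy τ).1}).comap (algebraMap (𝓞 F) (𝓞 (EE hA)))
  have h𝔞 : ∀ τ, τ ≠ 1 → 𝔞 τ ≠ ⊥ := by
    intro τ hτ
    obtain ⟨h1, h2⟩ := hxy τ hτ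
    exact Ideal.comap_ne_bot_of_integral_mem (sub_ne_zero.2 h2)
      (Ideal.mem_span_singleton_self _) (hint.isIntegral _)
  set 𝔡 : Ideals F := ∏ τ ∈ Finset.univ.erase (1 : (EE hA ≃ₐ[F] EE hA)), 𝔞 τ with h𝔡
  have h𝔡0 : 𝔡 ≠ ⊥ := by
    rw [h𝔡, ← Ideal.zero_eq_bot, Finset.prod_ne_zero_iff]
    intro τ hτ
    exact h𝔞 τ (Finset.ne_of_mem_erase hτ)
  refine ⟨𝔡, h𝔡0, ?_⟩
  intro σ hσ
  -- the automorphism over F
  let σ' : Qbar ≃ₐ[F] Qbar := IntermediateField.fixingSubgroupEquiv F ⟨σ, fixes_iff.1 hσ⟩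
  have hσ' : ∀ x, σ' x = σ x := fun x => rfl
  set g := AlgEquiv.restrictNormalHom (EE hA) σ' with hg
  have hgc : ∀ x : EE hA, ((g x : EE hA) : Qbar) = σ x := fun x =>
    AlgEquiv.restrictNormal_commutes σ' (EE hA) x
  have hne : 𝔮 * 𝔡 ≠ ⊥ := by
    rw [← Ideal.zero_eq_bot] at h𝔮 h𝔡0 ⊢
    exact mul_ne_zero h𝔮 h𝔡0
  obtain ⟨𝔭, P, hp, hcop, hP, hPin, hfr⟩ := Pool.Agent.Y773.AB.exists_frob F (EE hA) (𝔮 * 𝔡) hne g
  have hpp : 𝔭.IsPrime := Ideal.isPrime_of_prime hp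
  have hp0 : 𝔭 ≠ ⊥ := hp.ne_zero
  have hc1 : IsCoprime 𝔭 𝔮 := IsCoprime.of_mul_right_left hcop
  have hc2 : IsCoprime 𝔭 𝔡 := IsCoprime.of_mul_right_right hcop
  refine ⟨𝔭, hpp, hp0, hc1, hc2, ?_⟩
  intro a ha hfa
  let a' : Qbar ≃ₐ[F] Qbar := IntermediateField.fixingSubgroupEquiv F ⟨a, fixes_iff.1 ha⟩
  set s := AlgEquiv.restrictNormalHom (EE hA) a' with hs
  have hsc : ∀ x : EE hA, ((s x : EE hA) : Qbar) = a x := fun x =>
    AlgEquiv.restrictNormal_commutes a' (EE hA) x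
  -- a prime above P
  haveI : Algebra.IsAlgebraic (EE hA) Qbar := Algebra.IsAlgebraic.tower_top (K := ℚ) (EE hA)
  haveI : Algebra.IsIntegral (𝓞 (EE hA)) (𝓞 Qbar) := inferInstance
  haveI := hP
  obtain ⟨⟨𝔓, h𝔓, hl⟩⟩ := Ideal.nonempty_primesOver (S := 𝓞 Qbar) P
  have hPcomap : P.comap (algebraMap (𝓞 F) (𝓞 (EE hA))) = 𝔭 := by
    have hmax : 𝔭.IsMaximal := hpp.isMaximal hp0
    symm
    apply hmax.eq_of_le
    · exact (Ideal.comap_isPrime (algebraMap (𝓞 F) (𝓞 (EE hA))) P).ne_top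
    · intro x hx
      exact hPin x hx
  have hAb : Above F 𝔭 𝔓 := by
    refine ⟨h𝔓, ⟨?_⟩⟩
    have h1 : P = 𝔓.comap (algebraMap (𝓞 (EE hA)) (𝓞 Qbar)) := hl.over
    rw [← hPcomap, h1]
    rfl
  have hF := hfa 𝔓 hAb
  -- comparison
  have hsg : s = g := by
    by_contra hsg
    have hτ : s * g⁻¹ ≠ 1 := by
      intro h
      apply hsg
      rwa [mul_inv_eq_one] at h
    obtain ⟨e1, e2⟩ := hxy _ hτ
    set x := (xy (s * g⁻¹)).1 with hx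
    set y := (xy (s * g⁻¹)).2 with hy
    let w : 𝓞 (EE hA) := RingOfIntegers.mapRingHom ((g⁻¹ : (EE hA ≃ₐ[F] EE hA)) : EE hA →+* EE hA) x
    have hw : (w : EE hA) = g⁻¹ (x : EE hA) := rfl
    have hgw : (x : EE hA) = g (w : EE hA) := by
      rw [hw, AlgEquiv.aut_inv, AlgEquiv.apply_symm_apply]
    have hsw : (y : EE hA) = s (w : EE hA) := by
      rw [e1, hw]
      rfl
    have h1 : x - w ^ Ideal.absNorm 𝔭 ∈ P := hfr w x hgw
    have h2 : y - w ^ Ideal.absNorm 𝔭 ∈ P := by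
      have h3 := hF (algebraMap (𝓞 (EE hA)) (𝓞 Qbar) w) (algebraMap (𝓞 (EE hA)) (𝓞 Qbar) y)
        (by
          have : ((w : EE hA) : Qbar) ∈ EE hA := (w : EE hA).2
          exact this)
        (by
          have h4 : (((algebraMap (𝓞 (EE hA)) (𝓞 Qbar) y : 𝓞 Qbar)) : Qbar) = ((y : EE hA) : Qbar) :=
            rfl
          have h5 : (((algebraMap (𝓞 (EE hA)) (𝓞 Qbar) w : 𝓞 Qbar)) : Qbar) = ((w : EE hA) : Qbar) :=
            rfl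
          rw [h4, h5, hsw, hsc])
      have h6 : (algebraMap (𝓞 (EE hA)) (𝓞 Qbar)) (y - w ^ Ideal.absNorm 𝔭) ∈ 𝔓 := by
        rw [map_sub, map_pow]
        exact h3
      rw [Ideal.mem_of_liesOver 𝔓 P]
      exact h6
    have h7 : y - x ∈ P := by
      have := P.sub_mem h2 h1
      rwa [sub_sub_sub_cancel_right] at this
    have h8 : 𝔞 (s * g⁻¹) ≤ 𝔭 := by
      rw [← hPcomap]
      apply Ideal.comap_mono
      rw [Ideal.span_singleton_le_iff_mem]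
      exact h7
    have h9 : IsCoprime 𝔭 (𝔞 (s * g⁻¹)) :=
      IsCoprime.of_prod_right hc2 _ (Finset.mem_erase.2 ⟨hτ, Finset.mem_univ _⟩)
    rw [Ideal.isCoprime_iff_sup_eq, sup_eq_left.2 h8] at h9
    exact hpp.ne_top h9
  intro x hx
  have h1 := hsc ⟨x, hx⟩
  have h2 := hgc ⟨x, hx⟩
  rw [hsg] at h1
  exact h1.symm.trans h2

theorem s_CHEB : S_CHEB := by
  intro F H' _ 𝔣 art hA h𝔣 hart B hB
  obtain ⟨𝔟, h𝔟0, h𝔟⟩ := avoid B hB
  have hne : 𝔣 * 𝔟 ≠ ⊥ := by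
    rw [← Ideal.zero_eq_bot] at h𝔣 h𝔟0 ⊢
    exact mul_ne_zero h𝔣 h𝔟0
  refine ⟨⟨fun P hP => ⟨hP.1, hP.2.1, hP.2.2.1⟩, ?_⟩, ?_⟩
  · intro V hV1 hV2 σ hσ
    obtain ⟨𝔡, -, h⟩ := natural hA (𝔣 * 𝔟) hne
    obtain ⟨𝔭, hp, hp0, hc, -, hagree⟩ := h σ hσ
    have hc1 : IsCoprime 𝔭 𝔣 := IsCoprime.of_mul_right_left hc
    have hc2 : IsCoprime 𝔭 𝔟 := IsCoprime.of_mul_right_right hc
    have ha := hagree (art 𝔭) (hart.fix 𝔭 hc1) (hart.frob 𝔭 hp hc1)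
    have h1 : art 𝔭 ∈ V := hV2 𝔭 ⟨hp, hp0, hc1, h𝔟 𝔭 hp hp0 hc2⟩
    have h2 : (art 𝔭)⁻¹ * σ ∈ V := by
      apply hV1
      exact agree_iff.1 (fun x hx => (ha x hx).symm)
    have h3 := V.mul_mem h1 h2
    rwa [mul_inv_cancel_left] at h3
  · obtain ⟨p, hpN, hp⟩ := Nat.exists_infinite_primes (nrm F (𝔣 * 𝔟) + 1)
    obtain ⟨q, hqN, hq⟩ := Nat.exists_infinite_primes (p + 1)
    obtain ⟨P, hP, hP0, hcP, k, hk, hNP⟩ := exists_over (𝔣 * 𝔟) hne hp (by omega)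
    obtain ⟨Q, hQ, hQ0, hcQ, l, hl, hNQ⟩ := exists_over (𝔣 * 𝔟) hne hq (by omega)
    refine ⟨P, Q, ⟨hP, hP0, IsCoprime.of_mul_right_left hcP,
      h𝔟 P hP hP0 (IsCoprime.of_mul_right_right hcP)⟩, ⟨hQ, hQ0, IsCoprime.of_mul_right_left hcQ,
      h𝔟 Q hQ hQ0 (IsCoprime.of_mul_right_right hcQ)⟩, ?_⟩
    intro i j hi hj hij
    rw [hNP, hNQ, ← pow_mul, ← pow_mul] at hij
    have h1 : p ∣ q ^ (l * j) := by
      rw [← hij]
      exact dvd_pow_self p (Nat.mul_pos hk hi).ne'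
    have h2 := hp.dvd_of_dvd_pow h1
    rw [Nat.prime_dvd_prime_iff_eq hp hq] at h2
    omega

end Pool.Agent.L7h25.SP
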