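import Pool.Agent.L7h5.SP.Stm3
import Pool.Agent.L7h25.SP.Cheb

/-!
# Project SP, part CHEBF
-/

set_option autoImplicit false

namespace Pool.Agent.L7h25.SP
open NumberField Module IntermediateField
open Pool.Agent.K4H33.SK (Qbar GQ Fixes fixes_iff agree_iff agree_sup)
open Pool.Agent.K4H33.SK.Stmt (Sub Ideals nrm Cop prd principal Above IsFrob IsArtin cnt cntAll)
open Pool.Agent.L7h10.RQ (IsAbelian)
open Pool.Agent.L7h5.SP

theorem s_CHEBF (hR : S_REPS) : S_CHEBF := by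
  classical
  intro F H' _ 𝔣 art hA h𝔣 hart
  obtain ⟨R, ⟨hR1, hR2⟩, -⟩ := hR F F H' hA le_rfl hA.le
  obtain ⟨𝔡, -, hnat⟩ := natural hA 𝔣 h𝔣
  have hch : ∀ r : GQ, ∃ P : Ideals F, Fixes F r → P.IsPrime ∧ P ≠ ⊥ ∧ Cop F P 𝔣 ∧
      ∀ x ∈ H', art P x = r x := by
    intro r
    by_cases hr : Fixes F r
    · obtain ⟨𝔭, h1, h2, h3, -, h4⟩ := hnat r hr
      exact ⟨𝔭, fun _ => ⟨h1, h2, h3, h4 (art 𝔭) (hart.fix 𝔭 h3) (hart.frob 𝔭 h1 h3)⟩⟩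
    · exact ⟨⊥, fun h => absurd h hr⟩
  choose pr hpr using hch
  obtain ⟨-, P, Q, ⟨hP1, hP2, hP3, -⟩, ⟨hQ1, hQ2, hQ3, -⟩, hPQ⟩ :=
    s_CHEB F H' 𝔣 art hA h𝔣 hart ∅ Set.finite_empty
  refine ⟨insert P (insert Q (R.image pr)), ⟨?_, ?_⟩, P, Finset.mem_insert_self _ _, Q,
    Finset.mem_insert_of_mem (Finset.mem_insert_self _ _), hPQ⟩
  · intro P' hP'
    rw [Finset.mem_coe, Finset.mem_insert, Finset.mem_insert, Finset.mem_image] at hP'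
    rcases hP' with rfl | rfl | ⟨r, hr, rfl⟩
    · exact ⟨hP1, hP2, hP3⟩
    · exact ⟨hQ1, hQ2, hQ3⟩
    · obtain ⟨h1, h2, h3, -⟩ := hpr r (hR1 r hr)
      exact ⟨h1, h2, h3⟩
  · intro V hV1 hV2 σ hσ
    obtain ⟨r, ⟨hr, hrσ⟩, -⟩ := hR2 σ hσ
    obtain ⟨-, -, -, h4⟩ := hpr r (hR1 r hr)
    have h5 : art (pr r) ∈ V := by
      apply hV2
      rw [Finset.mem_coe]
      exact Finset.mem_insert_of_mem (Finset.mem_insert_of_mem (Finset.mem_image_of_mem pr hr))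
    have h6 : (art (pr r))⁻¹ * σ ∈ V := by
      apply hV1
      exact agree_iff.1 (fun x hx => (hrσ x hx).trans (h4 x hx).symm)
    have h7 := V.mul_mem h5 h6
    rwa [mul_inv_cancel_left] at h7

end Pool.Agent.L7h25.SP
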