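import Pool.Agent.L7h5.SP.Stm3
import Pool.Agent.L7h79.SP.Bez

/-!
# Project SP, part GLUE
-/

set_option autoImplicit false

namespace Pool.Agent.L7h25.SP
open NumberField Module IntermediateField
open Pool.Agent.K4H33.SK (Qbar GQ Fixes IsZeta AbelianRoot isZeta_deriv)
open Pool.Agent.K4H33.SK.Stmt (Sub Ideals nrm Cop IsArtin cnt cntAll)
open Pool.Agent.L7h10.RQ (IsAbelian StarkReal0)
open Pool.Agent.L7h5.SP
open Pool.Agent.L7h79.SP (Gd Fixes_one s_BEZ)

/-- the exponents form an ideal -/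
theorem pow_comb {ι : Qbar →+* ℂ} {F H : Sub} [NumberField F] {𝔣 : Ideals F} {art : Ideals F → GQ}
    {m n : ℤ} (hm : StarkPow ι F H 𝔣 art m) (hn : StarkPow ι F H 𝔣 art n) (u v : ℤ) :
    StarkPow ι F H 𝔣 art (u * m + v * n) := by
  obtain ⟨Z, ε, h1, h2, h3, h4, h5, h6⟩ := hm
  obtain ⟨Z', ε', k1, k2, k3, k4, k5, k6⟩ := hn
  have hε : ε ≠ 0 := by
    rintro rfl
    have := (h4 1 (Fixes_one F)).2.2.2
    rw [map_zero, map_zero] at this
    exact Complex.exp_ne_zero _ this.symm
  have hε' : ε' ≠ 0 := by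
    rintro rfl
    have := (k4 1 (Fixes_one F)).2.2.2
    rw [map_zero, map_zero] at this
    exact Complex.exp_ne_zero _ this.symm
  have g1 : Gd ι F H ε := ⟨h1, hε, h2, h3, h5, h6⟩
  have g2 : Gd ι F H ε' := ⟨k1, hε', k2, k3, k5, k6⟩
  have g3 := (g1.zpow u).mul (g2.zpow v)
  refine ⟨Z, ε ^ u * ε' ^ v, g3.mem, g3.int, g3.int', fun σ hσ => ?_, g3.norm, g3.root⟩
  obtain ⟨a1, a2, a3, a4⟩ := h4 σ hσ
  obtain ⟨b1, b2, b3, b4⟩ := k4 σ hσ
  have hd : deriv (Z' σ) 0 = deriv (Z σ) 0 := (isZeta_deriv b1 a1 fun _ _ => rfl).1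
  refine ⟨a1, a2, a3, ?_⟩
  rw [hd] at b4
  rw [map_mul, map_zpow₀, map_zpow₀, map_mul, map_zpow₀, map_zpow₀, a4, b4,
    ← Complex.exp_int_mul, ← Complex.exp_int_mul, ← Complex.exp_add]
  congr 1
  push_cast
  ring

theorem s_GLUE : S_GLUE := by
  intro ι F H _ 𝔣 art hFH hall
  obtain ⟨n2, hn2, hp2⟩ := hall 2 Nat.prime_two
  let I : Ideal ℤ :=
    { carrier := {n : ℤ | StarkPow ι F H 𝔣 art n}
      add_mem' := by
        intro a b ha hb
        have := pow_comb ha hb 1 1
        rwa [one_mul, one_mul] at this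
      zero_mem' := by
        have := pow_comb hp2 hp2 0 0
        rwa [zero_mul, zero_add] at this
      smul_mem' := by
        intro c a ha
        have := pow_comb ha ha c 0
        rwa [zero_mul, add_zero] at this }
  have hI : ∀ n : ℤ, n ∈ I ↔ StarkPow ι F H 𝔣 art n := fun n => Iff.rfl
  have htop : I = ⊤ := by
    by_contra hne
    obtain ⟨M, hM, hIM⟩ := Ideal.exists_le_maximal I hne
    obtain ⟨g, hg⟩ := (IsPrincipalIdealRing.principal M).principal
    have hg' : M = Ideal.span {g} := hg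
    have hmemg : ∀ n : ℤ, n ∈ M → g ∣ n := by
      intro n hn
      rw [hg', Ideal.mem_span_singleton] at hn
      exact hn
    by_cases hg0 : g = 0
    · have h1 := hmemg n2 (hIM hp2)
      rw [hg0, zero_dvd_iff] at h1
      apply hn2
      rw [h1]
      exact dvd_zero _
    · have hprime : Prime g := by
        have := hM.isPrime
        rw [hg', Ideal.span_singleton_prime hg0] at this
        exact this
      have hq : (g.natAbs).Prime := Int.prime_iff_natAbs_prime.1 hprime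
      obtain ⟨n, hn, hpn⟩ := hall g.natAbs hq
      apply hn
      have h1 := hmemg n (hIM hpn)
      rw [Int.natAbs_dvd]
      exact h1
  have h1 : StarkPow ι F H 𝔣 art 1 := by
    rw [← hI, htop]
    exact Submodule.mem_top
  exact s_BEZ ι F H 𝔣 art 1 1 hFH isCoprime_one_left h1 h1

end Pool.Agent.L7h25.SP
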