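import Pool.Agent.L7h5.SP.Stm

/-!
# Project SP, part TWO
-/

set_option autoImplicit false
set_option linter.style.haveILetI false

namespace Pool.Agent.L7h25.SP
open NumberField Module IntermediateField
open Pool.Agent.K4H33.SK (Qbar GQ Fixes fixes_iff agree_iff agree_sup)
open Pool.Agent.K4H33.SK.Stmt (Sub Ideals)
open Pool.Agent.L7h10.RQ (IsAbelian)
open Pool.Agent.L7h5.SP

lemma cheb_mem {ζ : Qbar} (h0 : ζ ≠ 0) (j : ℕ) : ζ ^ j + ζ⁻¹ ^ j ∈ ℚ⟮ζ + ζ⁻¹⟯ := by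
  have key : ∀ j : ℕ, ζ ^ j + ζ⁻¹ ^ j ∈ ℚ⟮ζ + ζ⁻¹⟯ ∧ ζ ^ (j + 1) + ζ⁻¹ ^ (j + 1) ∈ ℚ⟮ζ + ζ⁻¹⟯ := by
    intro j
    induction j with
    | zero =>
      refine ⟨?_, ?_⟩
      · rw [pow_zero, pow_zero]
        exact add_mem (one_mem _) (one_mem _)
      · rw [zero_add, pow_one, pow_one]
        exact mem_adjoin_simple_self ℚ _
    | succ j ih =>
      refine ⟨ih.2, ?_⟩
      have e : ζ ^ (j + 1 + 1) + ζ⁻¹ ^ (j + 1 + 1) =
          (ζ + ζ⁻¹) * (ζ ^ (j + 1) + ζ⁻¹ ^ (j + 1)) - (ζ ^ j + ζ⁻¹ ^ j) := by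
        have h1 : ζ * ζ⁻¹ = 1 := mul_inv_cancel₀ h0
        have e1 : (ζ + ζ⁻¹) * (ζ ^ (j + 1) + ζ⁻¹ ^ (j + 1)) =
            ζ ^ (j + 1 + 1) + ζ⁻¹ ^ (j + 1 + 1) + (ζ * ζ⁻¹) * ζ⁻¹ ^ j + (ζ * ζ⁻¹) * ζ ^ j := by
          ring
        rw [e1, h1]
        ring
      rw [e]
      exact sub_mem (mul_mem (mem_adjoin_simple_self ℚ _) ih.2) ih.1
  exact (key j).1

lemma exists_pow {n : ℕ} (hn : 0 < n) {ζ : Qbar} (hζ : IsPrimitiveRoot ζ n) (σ : GQ) :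
    ∃ j : ℕ, σ ζ = ζ ^ j := by
  haveI : NeZero n := ⟨hn.ne'⟩
  have h1 : (σ ζ) ^ n = 1 := by rw [← map_pow, hζ.pow_eq_one, map_one]
  obtain ⟨i, -, hi⟩ := hζ.eq_pow_of_pow_eq_one h1
  exact ⟨i, hi.symm⟩

lemma map_T {n : ℕ} (hn : 0 < n) {ζ : Qbar} (hζ : IsPrimitiveRoot ζ n) (σ : GQ) :
    (ℚ⟮ζ + ζ⁻¹⟯).map (σ : Qbar →ₐ[ℚ] Qbar) ≤ ℚ⟮ζ + ζ⁻¹⟯ := by
  rw [adjoin_map, Set.image_singleton, adjoin_simple_le_iff]
  obtain ⟨j, hj⟩ := exists_pow hn hζ σ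
  have h1 : (σ : Qbar →ₐ[ℚ] Qbar) (ζ + ζ⁻¹) = ζ ^ j + ζ⁻¹ ^ j := by
    have : (σ : Qbar →ₐ[ℚ] Qbar) (ζ + ζ⁻¹) = σ (ζ + ζ⁻¹) := rfl
    rw [this, map_add, map_inv₀, hj, inv_pow]
  rw [h1]
  exact cheb_mem (hζ.ne_zero hn.ne') j

lemma finrank_T {m : ℕ} {ζ : Qbar} (hζ : IsPrimitiveRoot ζ (2 ^ (m + 2))) :
    2 ^ m ∣ finrank ℚ ℚ⟮ζ + ζ⁻¹⟯ := by
  have h0 : ζ ≠ 0 := hζ.ne_zero (by positivity)
  have hint : IsIntegral ℚ ζ := Algebra.IsIntegral.isIntegral ζ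
  set T : Sub := ℚ⟮ζ + ζ⁻¹⟯ with hT
  have hfull : finrank ℚ ℚ⟮ζ⟯ = 2 ^ (m + 1) := by
    rw [adjoin.finrank hint, ← Polynomial.cyclotomic_eq_minpoly_rat hζ (by positivity),
      Polynomial.natDegree_cyclotomic, Nat.totient_prime_pow_succ Nat.prime_two]
    norm_num
  have hintT : IsIntegral T ζ := hint.tower_top
  let a : T := ⟨ζ + ζ⁻¹, mem_adjoin_simple_self ℚ _⟩
  let p : Polynomial T := Polynomial.X ^ 2 - Polynomial.C a * Polynomial.X + 1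
  have hp2 : p.natDegree = 2 := by
    have : p = Polynomial.X ^ 2 - Polynomial.C a * Polynomial.X + 1 := rfl
    rw [this]
    compute_degree!
  have hp0 : p ≠ 0 := by
    intro h
    rw [h] at hp2
    simp at hp2
  have hroot : Polynomial.aeval ζ p = 0 := by
    have : p = Polynomial.X ^ 2 - Polynomial.C a * Polynomial.X + 1 := rfl
    rw [this]
    simp only [map_add, map_sub, map_mul, map_pow, Polynomial.aeval_X, Polynomial.aeval_C, map_one]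
    have e : (algebraMap T Qbar) a = ζ + ζ⁻¹ := rfl
    rw [e, add_mul, inv_mul_cancel₀ h0]
    ring
  have hdeg : (minpoly T ζ).natDegree ≤ 2 := by
    have := Polynomial.natDegree_le_of_dvd (minpoly.dvd T ζ hroot) hp0
    omega
  have hpos : 0 < (minpoly T ζ).natDegree := minpoly.natDegree_pos hintT
  have hfT : finrank T T⟮ζ⟯ = (minpoly T ζ).natDegree := adjoin.finrank hintT
  have htower : finrank ℚ T * finrank T T⟮ζ⟯ = finrank ℚ T⟮ζ⟯ := Module.finrank_mul_finrank ℚ T T⟮ζ⟯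
  have hle : ℚ⟮ζ⟯ ≤ (T⟮ζ⟯).restrictScalars ℚ := by
    rw [adjoin_simple_le_iff]
    exact mem_adjoin_simple_self T ζ
  have hdvd : finrank ℚ ℚ⟮ζ⟯ ∣ finrank ℚ T⟮ζ⟯ := by
    have := finrank_dvd_of_le_right hle
    exact this
  rw [hfull, ← htower, hfT] at hdvd
  interval_cases h : (minpoly T ζ).natDegree
  · rw [mul_one] at hdvd
    exact (pow_dvd_pow 2 (by omega)).trans hdvd
  · rw [pow_succ] at hdvd
    exact Nat.dvd_of_mul_dvd_mul_right (by norm_num) hdvd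

theorem s_TWO : S_TWO := by
  intro F H hA
  haveI := hA.fin
  set d := finrank ℚ H with hd
  have hd0 : 0 < d := finrank_pos
  have hNZ : NeZero (2 ^ (d + 2)) := ⟨by positivity⟩
  obtain ⟨ζ, hζ⟩ := HasEnoughRootsOfUnity.exists_primitiveRoot Qbar (2 ^ (d + 2))
  have hn : 0 < 2 ^ (d + 2) := by positivity
  have hint : IsIntegral ℚ (ζ + ζ⁻¹) := Algebra.IsIntegral.isIntegral _
  haveI : FiniteDimensional ℚ ℚ⟮ζ + ζ⁻¹⟯ := adjoin.finiteDimensional hint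
  refine ⟨d + 2, ζ, hζ, ⟨hA.le.trans le_sup_left, inferInstance, ?_, ?_⟩, ?_⟩
  · intro σ hσ x hx
    have h1 : (H ⊔ ℚ⟮ζ + ζ⁻¹⟯).map (σ : Qbar →ₐ[ℚ] Qbar) ≤ H ⊔ ℚ⟮ζ + ζ⁻¹⟯ := by
      rw [IntermediateField.map_sup]
      refine sup_le_sup ?_ (map_T hn hζ σ)
      rintro _ ⟨y, hy, rfl⟩
      exact hA.normal σ hσ y hy
    exact h1 ⟨x, hx, rfl⟩
  · intro σ τ hσ hτ
    have h1 : ∀ x ∈ H ⊔ ℚ⟮ζ + ζ⁻¹⟯, (σ * τ) x = (τ * σ) x := by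
      apply agree_sup
      · intro x hx
        exact hA.comm σ τ hσ hτ x hx
      · obtain ⟨i, hi⟩ := exists_pow hn hζ σ
        obtain ⟨j, hj⟩ := exists_pow hn hζ τ
        have h2 : (σ * τ) ζ = (τ * σ) ζ := by
          rw [AlgEquiv.mul_apply, AlgEquiv.mul_apply, hi, hj, map_pow, map_pow, hi, hj, ← pow_mul,
            ← pow_mul, mul_comm]
        have h3 : ((σ * τ)⁻¹ * (τ * σ)) ζ = ζ := by
          rw [AlgEquiv.mul_apply, ← h2, AlgEquiv.aut_inv, AlgEquiv.symm_apply_apply]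
        rw [agree_iff, fixes_iff]
        have h4 : ((τ * σ)⁻¹ * (σ * τ)) ζ = ζ := by
          rw [AlgEquiv.mul_apply, h2, AlgEquiv.aut_inv, AlgEquiv.symm_apply_apply]
        rw [← Subgroup.zpowers_le, ← IntermediateField.le_iff_le, adjoin_simple_le_iff,
          mem_fixedField_iff]
        intro s hs
        obtain ⟨n, rfl⟩ := Subgroup.mem_zpowers_iff.1 hs
        have h5 : ((τ * σ)⁻¹ * (σ * τ)) (ζ + ζ⁻¹) = ζ + ζ⁻¹ := by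
          rw [map_add, map_inv₀, h4]
        have h6 : ((τ * σ)⁻¹ * (σ * τ)) ∈ MulAction.stabilizer GQ (ζ + ζ⁻¹) := h5
        exact zpow_mem h6 n
    exact h1
  · have h1 : finrank ℚ H ∣ finrank ℚ ↥(H ⊔ ℚ⟮ζ + ζ⁻¹⟯) := finrank_dvd_of_le_right le_sup_left
    have h2 : finrank ℚ ℚ⟮ζ + ζ⁻¹⟯ ∣ finrank ℚ ↥(H ⊔ ℚ⟮ζ + ζ⁻¹⟯) :=
      finrank_dvd_of_le_right le_sup_right
    have h3 : 2 ^ d ∣ finrank ℚ ↥(H ⊔ ℚ⟮ζ + ζ⁻¹⟯) := (finrank_T hζ).trans h2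
    obtain ⟨r, hr⟩ := h1
    rw [hr] at h3
    have h4 : 2 ∣ r := by
      by_contra hodd
      have h5 : Nat.Coprime (2 ^ d) r :=
        Nat.Coprime.pow_left d ((Nat.Prime.coprime_iff_not_dvd Nat.prime_two).2 hodd)
      have h6 : 2 ^ d ∣ finrank ℚ H := h5.dvd_of_dvd_mul_right h3
      have h7 := Nat.le_of_dvd hd0 h6
      have h8 : d < 2 ^ d := Nat.lt_two_pow_self
      omega
    obtain ⟨u, rfl⟩ := h4
    rw [hr]
    exact ⟨u, by ring⟩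

end Pool.Agent.L7h25.SP
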